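import Mathlib

set_option autoImplicit false

open CategoryTheory TensorProduct

namespace Pool.Agent.Results.MP_52d248_al.AbelRational

universe u

/-- `(L, η)` is a localization functor on the category of groups: for every group `G` the maps
`L(η_G)` and `η_{L G}` from `L G` to `L (L G)` are equal, and they are isomorphisms. -/
structure IsLocalizationFunctor (L : GrpCat.{u} ⥤ GrpCat.{u}) (η : 𝟭 GrpCat.{u} ⟶ L) : Prop where
  map_eq : ∀ G : GrpCat.{u}, L.map (η.app G) = η.app (L.obj G)
  isIso_app : ∀ G : GrpCat.{u}, IsIso (η.app (L.obj G))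
  isIso_map : ∀ G : GrpCat.{u}, IsIso (L.map (η.app G))

/-- `L` is an epireflection: every `η_G : G → L G` is surjective. -/
def IsEpireflection (L : GrpCat.{u} ⥤ GrpCat.{u}) (η : 𝟭 GrpCat.{u} ⟶ L) : Prop :=
  ∀ G : GrpCat.{u}, Function.Surjective (η.app G)

/-- `1 → N → E → G → 1` is a short exact sequence of groups (an extension of `G` by `N`). -/
structure IsShortExact {N E G : GrpCat.{u}} (i : N ⟶ E) (p : E ⟶ G) : Prop where
  injective : Function.Injective i
  surjective : Function.Surjective p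
  range_eq_ker : i.hom.range = p.hom.ker

/-- The pullback group `E ×_G H` of `p : E → G` and `f : H → G`, as the subgroup
`{(e, h) | p e = f h}` of `E × H`. -/
abbrev pullbackGroup {E G H : GrpCat.{u}} (p : E ⟶ G) (f : H ⟶ G) : GrpCat.{u} :=
  GrpCat.of ((p.hom.comp (MonoidHom.fst E H)).eqLocus (f.hom.comp (MonoidHom.snd E H)))

/-- The projection `E ×_G H → H`. -/
def pullbackProj {E G H : GrpCat.{u}} (p : E ⟶ G) (f : H ⟶ G) : pullbackGroup p f ⟶ H :=
  GrpCat.ofHom ((MonoidHom.snd E H).comp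
    ((p.hom.comp (MonoidHom.fst E H)).eqLocus (f.hom.comp (MonoidHom.snd E H))).subtype)

/-- The inclusion `N → E ×_G H`, `n ↦ (i n, 1)`, for an extension `1 → N → E → G → 1`. -/
def pullbackIncl {N E G H : GrpCat.{u}} {i : N ⟶ E} {p : E ⟶ G} (h : IsShortExact i p)
    (f : H ⟶ G) : N ⟶ pullbackGroup p f :=
  GrpCat.ofHom (((MonoidHom.inl E H).comp i.hom).codRestrict _ (fun n => by
    have hn : i.hom n ∈ p.hom.ker := h.range_eq_ker ▸ ⟨n, rfl⟩
    have hn' : p.hom (i.hom n) = 1 := hn
    change p.hom (i.hom n) = f.hom 1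
    rw [hn', map_one]))

/-- `L` is conditionally flat: for every `L`-flat extension `1 → N → E → G → 1` (an extension whose
image under `L` is again short exact) and every homomorphism `f : H → G`, the pulled back extension
`1 → N → E ×_G H → H → 1` is again `L`-flat. -/
def IsConditionallyFlat (L : GrpCat.{u} ⥤ GrpCat.{u}) : Prop :=
  ∀ (N E G H : GrpCat.{u}) (i : N ⟶ E) (p : E ⟶ G) (h : IsShortExact i p)
    (_ : IsShortExact (L.map i) (L.map p)) (f : H ⟶ G),
    IsShortExact (pullbackIncl h f) (pullbackProj p f) ∧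
      IsShortExact (L.map (pullbackIncl h f)) (L.map (pullbackProj p f))

lemma of_surj {G : Type u} [Group G] (x : Additive (Abelianization G)) :
    ∃ g : G, Additive.ofMul (Abelianization.of g) = x := by
  obtain ⟨g, hg⟩ := Quot.exists_rep (Additive.toMul x)
  exact ⟨g, hg⟩

/-- `G_ab ⊗ ℚ`. -/
abbrev AbQ (G : Type u) [Group G] : Type u := ℚ ⊗[ℤ] Additive (Abelianization G)

noncomputable def abMap {G H : Type u} [Group G] [Group H] (f : G →* H) :
    Additive (Abelianization G) →ₗ[ℤ] Additive (Abelianization H) :=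
  (MonoidHom.toAdditive (Abelianization.map f)).toIntLinearMap

lemma abMap_of {G H : Type u} [Group G] [Group H] (f : G →* H) (g : G) :
    abMap f (Additive.ofMul (Abelianization.of g)) = Additive.ofMul (Abelianization.of (f g)) := rfl

lemma abMap_id (G : Type u) [Group G] : abMap (MonoidHom.id G) = LinearMap.id := by
  apply LinearMap.ext
  intro x
  obtain ⟨g, rfl⟩ := of_surj x
  rfl

lemma abMap_comp {G H K : Type u} [Group G] [Group H] [Group K] (f : G →* H) (g : H →* K) :
    abMap (g.comp f) = (abMap g).comp (abMap f) := by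
  apply LinearMap.ext
  intro x
  obtain ⟨g, rfl⟩ := of_surj x
  rfl

noncomputable def abQMap {G H : Type u} [Group G] [Group H] (f : G →* H) : AbQ G →ₗ[ℤ] AbQ H :=
  LinearMap.lTensor ℚ (abMap f)

/-- The functor `G ↦ G_ab ⊗ ℚ` on groups. -/
noncomputable def abQ : GrpCat.{u} ⥤ GrpCat.{u} where
  obj G := GrpCat.of (Multiplicative (AbQ G))
  map f := GrpCat.ofHom (AddMonoidHom.toMultiplicative (abQMap f.hom).toAddMonoidHom)
  map_id G := by
    refine GrpCat.hom_ext (MonoidHom.ext fun x => ?_)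
    change Multiplicative.ofAdd (abQMap (MonoidHom.id G) (Multiplicative.toAdd x)) = x
    rw [abQMap, abMap_id, LinearMap.lTensor_id]
    rfl
  map_comp f g := by
    refine GrpCat.hom_ext (MonoidHom.ext fun x => ?_)
    change Multiplicative.ofAdd (abQMap (g.hom.comp f.hom) (Multiplicative.toAdd x)) =
      Multiplicative.ofAdd (abQMap g.hom (abQMap f.hom (Multiplicative.toAdd x)))
    rw [abQMap, abMap_comp, LinearMap.lTensor_comp]
    rfl

/-- `G → G_ab ⊗ ℚ`, `g ↦ 1 ⊗ [g]`. -/
noncomputable def unitHom (G : Type u) [Group G] : G →* Multiplicative (AbQ G) where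
  toFun g := Multiplicative.ofAdd ((1 : ℚ) ⊗ₜ[ℤ] Additive.ofMul (Abelianization.of g))
  map_one' := by
    rw [map_one, ofMul_one, TensorProduct.tmul_zero, ofAdd_zero]
  map_mul' a b := by
    rw [map_mul, ofMul_mul, TensorProduct.tmul_add, ofAdd_add]

noncomputable def unit : 𝟭 GrpCat.{u} ⟶ abQ where
  app G := GrpCat.ofHom (unitHom G)
  naturality G H f := by
    refine GrpCat.hom_ext (MonoidHom.ext fun x => ?_)
    rfl

lemma tmul_eq (V : Type u) [AddCommGroup V] [Module ℚ V] {A : Type u} [AddCommGroup A]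
    (φ : V →+ A) (q : ℚ) (v : V) :
    q ⊗ₜ[ℤ] φ v = (1 : ℚ) ⊗ₜ[ℤ] φ (q • v) := by
  have hd : (q.den : ℚ) ≠ 0 := by exact_mod_cast q.den_nz
  have h1 : v = (q.den : ℤ) • ((q.den : ℚ)⁻¹ • v) := by
    rw [← Int.cast_smul_eq_zsmul ℚ, Int.cast_natCast, smul_smul, mul_inv_cancel₀ hd, one_smul]
  have h2 : (q.den : ℤ) • q = q.num • (1 : ℚ) := by
    rw [zsmul_eq_mul, zsmul_eq_mul, mul_one, Int.cast_natCast, Rat.den_mul_eq_num]
  calc q ⊗ₜ[ℤ] φ v = q ⊗ₜ[ℤ] φ ((q.den : ℤ) • ((q.den : ℚ)⁻¹ • v)) := by rw [← h1]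
    _ = q ⊗ₜ[ℤ] ((q.den : ℤ) • φ ((q.den : ℚ)⁻¹ • v)) := by rw [map_zsmul]
    _ = ((q.den : ℤ) • q) ⊗ₜ[ℤ] φ ((q.den : ℚ)⁻¹ • v) := by
        rw [TensorProduct.tmul_smul, TensorProduct.smul_tmul']
    _ = (q.num • (1 : ℚ)) ⊗ₜ[ℤ] φ ((q.den : ℚ)⁻¹ • v) := by rw [h2]
    _ = (1 : ℚ) ⊗ₜ[ℤ] (q.num • φ ((q.den : ℚ)⁻¹ • v)) := by rw [TensorProduct.smul_tmul]
    _ = (1 : ℚ) ⊗ₜ[ℤ] φ (q.num • ((q.den : ℚ)⁻¹ • v)) := by rw [map_zsmul]
    _ = (1 : ℚ) ⊗ₜ[ℤ] φ (q • v) := by
        congr 2
        rw [← Int.cast_smul_eq_zsmul ℚ, smul_smul]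
        congr 1
        rw [← div_eq_mul_inv, Rat.num_div_den]

/-- the additive map `V → (V as a multiplicative group)_ab`. -/
def toAb (V : Type u) [AddCommGroup V] : V →+ Additive (Abelianization (Multiplicative V)) where
  toFun v := Additive.ofMul (Abelianization.of (Multiplicative.ofAdd v))
  map_zero' := by rw [ofAdd_zero, map_one, ofMul_one]
  map_add' a b := by rw [ofAdd_add, map_mul, ofMul_mul]

lemma tmul_of_eq (V : Type u) [AddCommGroup V] [Module ℚ V] (q : ℚ) (v : V) :
    q ⊗ₜ[ℤ] Additive.ofMul (Abelianization.of (Multiplicative.ofAdd v)) =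
      (1 : ℚ) ⊗ₜ[ℤ] Additive.ofMul (Abelianization.of (Multiplicative.ofAdd (q • v))) :=
  tmul_eq V (toAb V) q v

/-- the canonical map from the abelianisation of (the multiplicative group of) `V` to `V`. -/
noncomputable def backHom (V : Type u) [AddCommGroup V] :
    Additive (Abelianization (Multiplicative V)) →ₗ[ℤ] V :=
  (MonoidHom.toAdditiveLeft
    (Abelianization.lift (MonoidHom.id (Multiplicative V)))).toIntLinearMap

lemma backHom_of (V : Type u) [AddCommGroup V] (v : Multiplicative V) :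
    backHom V (Additive.ofMul (Abelianization.of v)) = Multiplicative.toAdd v := rfl

/-- `q ⊗ [v] ↦ q • v`. -/
noncomputable def backQ (V : Type u) [AddCommGroup V] [Module ℚ V] :
    AbQ (Multiplicative V) →ₗ[ℤ] V :=
  TensorProduct.lift (LinearMap.mk₂ ℤ (fun (q : ℚ) (a : Additive (Abelianization (Multiplicative V))) =>
      q • backHom V a)
    (fun q r a => add_smul _ _ _)
    (fun c q a => by simp only [smul_assoc])
    (fun q a b => by rw [map_add, smul_add])
    (fun c q a => by rw [map_smul, smul_comm]))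

lemma backQ_tmul (V : Type u) [AddCommGroup V] [Module ℚ V] (q : ℚ)
    (a : Additive (Abelianization (Multiplicative V))) :
    backQ V (q ⊗ₜ[ℤ] a) = q • backHom V a := rfl

/-- the unit at (the multiplicative group of) a rational vector space is bijective. -/
lemma unitHom_bijective (V : Type u) [AddCommGroup V] [Module ℚ V] :
    Function.Bijective (unitHom (Multiplicative V)) := by
  constructor
  · intro x y hxy
    have h := congrArg (fun z => backQ V (Multiplicative.toAdd z)) hxy
    change backQ V ((1 : ℚ) ⊗ₜ[ℤ] Additive.ofMul (Abelianization.of x)) =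
      backQ V ((1 : ℚ) ⊗ₜ[ℤ] Additive.ofMul (Abelianization.of y)) at h
    rw [backQ_tmul, backQ_tmul, one_smul, one_smul, backHom_of, backHom_of] at h
    exact h
  · intro z
    obtain ⟨w, rfl⟩ := Multiplicative.ofAdd.surjective z
    induction w using TensorProduct.induction_on with
    | zero => exact ⟨1, by rw [map_one, ofAdd_zero]⟩
    | add a b ha hb =>
      obtain ⟨x, hx⟩ := ha
      obtain ⟨y, hy⟩ := hb
      exact ⟨x * y, by rw [map_mul, hx, hy, ofAdd_add]⟩
    | tmul q a =>
      obtain ⟨v, rfl⟩ := of_surj a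
      exact ⟨Multiplicative.ofAdd (q • Multiplicative.toAdd v),
        congrArg Multiplicative.ofAdd (tmul_of_eq V q (Multiplicative.toAdd v)).symm⟩

lemma abQ_map_unit (G : GrpCat.{u}) :
    abQ.map (unit.app G) = unit.app (abQ.obj G) := by
  refine GrpCat.hom_ext (MonoidHom.ext fun x => ?_)
  obtain ⟨w, rfl⟩ := Multiplicative.ofAdd.surjective x
  change Multiplicative.ofAdd (abQMap (unitHom G) w) =
    unitHom (Multiplicative (AbQ G)) (Multiplicative.ofAdd w)
  induction w using TensorProduct.induction_on with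
  | zero => rw [map_zero, ofAdd_zero, ofAdd_zero, map_one]
  | add a b ha hb => rw [map_add, ofAdd_add, ofAdd_add, ha, hb, map_mul]
  | tmul q a =>
    obtain ⟨g, rfl⟩ := of_surj a
    have h := tmul_of_eq (AbQ G) q ((1 : ℚ) ⊗ₜ[ℤ] Additive.ofMul (Abelianization.of g))
    rw [TensorProduct.smul_tmul', smul_eq_mul, mul_one] at h
    exact congrArg Multiplicative.ofAdd h

lemma isIso_unit (G : GrpCat.{u}) : IsIso (unit.app (abQ.obj G)) := by
  have h := unitHom_bijective (AbQ G)
  exact (MulEquiv.toGrpIso (X := abQ.obj G) (Y := abQ.obj (abQ.obj G))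
    (MulEquiv.ofBijective (unitHom (Multiplicative (AbQ G))) h)).isIso_hom

lemma abMap_surjective {E G : Type u} [Group E] [Group G] (p : E →* G)
    (hp : Function.Surjective p) : Function.Surjective (abMap p) := by
  intro x
  obtain ⟨g, rfl⟩ := of_surj x
  obtain ⟨e, rfl⟩ := hp g
  exact ⟨Additive.ofMul (Abelianization.of e), rfl⟩

lemma abMap_exact {N E G : Type u} [Group N] [Group E] [Group G] (i : N →* E) (p : E →* G)
    (hp : Function.Surjective p) (h : i.range = p.ker) : Function.Exact (abMap i) (abMap p) := by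
  intro y
  constructor
  · intro hy
    obtain ⟨e, rfl⟩ := of_surj y
    have h1 : Abelianization.of (p e) = 1 := hy
    have h2 : p e ∈ commutator G := by
      rw [← Abelianization.ker_of]; exact h1
    have h3 : commutator G = (commutator E).map p := by
      rw [commutator_def, commutator_def, Subgroup.map_commutator,
        Subgroup.map_top_of_surjective p hp]
    rw [h3] at h2
    obtain ⟨c, hc, hce⟩ := h2
    have h4 : c⁻¹ * e ∈ p.ker := by
      rw [MonoidHom.mem_ker, map_mul, map_inv, hce, inv_mul_cancel]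
    rw [← h] at h4
    obtain ⟨n, hn⟩ := h4
    refine ⟨Additive.ofMul (Abelianization.of n), ?_⟩
    rw [abMap_of, hn, map_mul, map_inv]
    have h5 : Abelianization.of c = 1 := by
      rw [← MonoidHom.mem_ker, Abelianization.ker_of]; exact hc
    rw [h5, inv_one, one_mul]
  · rintro ⟨x, rfl⟩
    obtain ⟨n, rfl⟩ := of_surj x
    rw [abMap_of, abMap_of]
    have h1 : i n ∈ p.ker := h ▸ ⟨n, rfl⟩
    rw [MonoidHom.mem_ker.mp h1, map_one, ofMul_one]

lemma abQ_rightExact {N E G : GrpCat.{u}} (i : N ⟶ E) (p : E ⟶ G)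
    (hp : Function.Surjective p) (h : i.hom.range = p.hom.ker) :
    Function.Surjective (abQ.map p) ∧ (abQ.map i).hom.range = (abQ.map p).hom.ker := by
  have hs : Function.Surjective (abMap p.hom) := abMap_surjective p.hom hp
  have he := lTensor_exact ℚ (abMap_exact i.hom p.hom hp h) hs
  have hs' : Function.Surjective (LinearMap.lTensor ℚ (abMap p.hom)) :=
    LinearMap.lTensor_surjective ℚ hs
  refine ⟨?_, ?_⟩
  · intro z
    obtain ⟨w, hw⟩ := hs' (Multiplicative.toAdd z)
    exact ⟨Multiplicative.ofAdd w, congrArg Multiplicative.ofAdd hw⟩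
  · ext z
    rw [MonoidHom.mem_ker]
    constructor
    · rintro ⟨w, rfl⟩
      exact congrArg Multiplicative.ofAdd ((he _).mpr ⟨Multiplicative.toAdd w, rfl⟩)
    · intro hz
      obtain ⟨w, hw⟩ := (he (Multiplicative.toAdd z)).mp (congrArg Multiplicative.toAdd hz)
      exact ⟨Multiplicative.ofAdd w, congrArg Multiplicative.ofAdd hw⟩


/-- the projection `E ×_G H → E`. -/
def pullbackFst {E G H : GrpCat.{u}} (p : E ⟶ G) (f : H ⟶ G) : pullbackGroup p f ⟶ E :=
  GrpCat.ofHom ((MonoidHom.fst E H).comp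
    ((p.hom.comp (MonoidHom.fst E H)).eqLocus (f.hom.comp (MonoidHom.snd E H))).subtype)

lemma pullback_isShortExact {N E G H : GrpCat.{u}} {i : N ⟶ E} {p : E ⟶ G}
    (h : IsShortExact i p) (f : H ⟶ G) : IsShortExact (pullbackIncl h f) (pullbackProj p f) := by
  refine ⟨?_, ?_, ?_⟩
  · intro a b hab
    have h1 : i.hom a = i.hom b := congrArg (fun z => (pullbackFst p f).hom z) hab
    exact h.injective h1
  · intro x
    obtain ⟨e, he⟩ := h.surjective (f.hom x)
    exact ⟨⟨(e, x), he⟩, rfl⟩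
  · ext z
    rw [MonoidHom.mem_ker]
    constructor
    · rintro ⟨n, rfl⟩
      rfl
    · intro hz
      obtain ⟨⟨e, x⟩, hex⟩ := z
      have hx : x = 1 := hz
      subst hx
      have h1 : p.hom e = f.hom 1 := hex
      rw [map_one] at h1
      have h2 : e ∈ i.hom.range := by rw [h.range_eq_ker]; exact h1
      obtain ⟨n, rfl⟩ := h2
      exact ⟨n, rfl⟩

lemma abQ_conditionallyFlat : IsConditionallyFlat abQ.{u} := by
  intro N E G H i p h hL f
  have hs := pullback_isShortExact h f
  refine ⟨hs, ?_⟩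
  obtain ⟨h1, h2⟩ := abQ_rightExact (pullbackIncl h f) (pullbackProj p f) hs.surjective
    hs.range_eq_ker
  refine ⟨?_, h1, h2⟩
  have hc : pullbackIncl h f ≫ pullbackFst p f = i := by
    refine GrpCat.hom_ext (MonoidHom.ext fun x => ?_)
    rfl
  have hinj := hL.injective
  rw [← hc, abQ.map_comp] at hinj
  intro a b hab
  apply hinj
  change (abQ.map (pullbackFst p f)).hom ((abQ.map (pullbackIncl h f)).hom a) =
    (abQ.map (pullbackFst p f)).hom ((abQ.map (pullbackIncl h f)).hom b)
  exact congrArg _ hab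

/-- the integers as a group in `Type u`. -/
abbrev ZZ : GrpCat.{u} := GrpCat.of (ULift.{u} (Multiplicative ℤ))

noncomputable def zHom : Additive (Abelianization (ULift.{u} (Multiplicative ℤ))) →ₗ[ℤ] ℤ :=
  (MonoidHom.toAdditiveLeft (Abelianization.lift
    (MulEquiv.ulift (α := Multiplicative ℤ)).toMonoidHom)).toIntLinearMap

noncomputable def zQ : AbQ (ULift.{u} (Multiplicative ℤ)) →ₗ[ℤ] ℚ :=
  TensorProduct.lift (LinearMap.mk₂ ℤ
    (fun (q : ℚ) (a : Additive (Abelianization (ULift.{u} (Multiplicative ℤ)))) =>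
      q * (zHom a : ℚ))
    (fun q r a => add_mul _ _ _)
    (fun c q a => by simp only [zsmul_eq_mul, mul_assoc])
    (fun q a b => by rw [map_add, Int.cast_add, mul_add])
    (fun c q a => by rw [map_smul, smul_eq_mul, Int.cast_mul, zsmul_eq_mul, mul_left_comm]))

lemma not_epi : ¬ IsEpireflection abQ.{u} unit := by
  intro h
  obtain ⟨x, hx⟩ := h ZZ (Multiplicative.ofAdd ((1 / 2 : ℚ) ⊗ₜ[ℤ]
    Additive.ofMul (Abelianization.of (ULift.up (Multiplicative.ofAdd (1 : ℤ))))))
  have h1 := congrArg (fun z => zQ (Multiplicative.toAdd z)) hx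
  change (1 : ℚ) * ((Multiplicative.toAdd x.down : ℤ) : ℚ) = (1 / 2 : ℚ) * ((1 : ℤ) : ℚ) at h1
  rw [one_mul, Int.cast_one, mul_one] at h1
  have h2 : (2 * Multiplicative.toAdd x.down : ℤ) = 1 := by
    have : (2 : ℚ) * ((Multiplicative.toAdd x.down : ℤ) : ℚ) = 1 := by rw [h1]; norm_num
    exact_mod_cast this
  omega

/-- There is a localization functor on the category of groups that is conditionally flat and is not
an epireflection (namely `G ↦ G_ab ⊗ ℚ`). -/
theorem result : ∃ (L : GrpCat.{u} ⥤ GrpCat.{u}) (η : 𝟭 GrpCat.{u} ⟶ L),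
    IsLocalizationFunctor L η ∧ IsConditionallyFlat L ∧ ¬ IsEpireflection L η :=
  ⟨abQ, unit,
    ⟨abQ_map_unit, isIso_unit, fun G => by rw [abQ_map_unit]; exact isIso_unit G⟩,
    abQ_conditionallyFlat, not_epi⟩

end Pool.Agent.Results.MP_52d248_al.AbelRational
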